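import Mathlib
import Pool.Agent.H29.RCF

open Polynomial IntermediateField Pool.Agent.H29.RCF

namespace Pool.Agent.Results.MP_9bb08e_al.Dense

lemma eis {A : Type*} [Field A] (P : A[X][X]) (q : A) (l N : ℕ) (hl : P.natDegree < l)
    (hq : (P.coeff 0).eval q ≠ 0) :
    (X ^ l + C ((X - C q) * (X - C q + 1) ^ N) * P : A[X][X]).Monic ∧
    (X ^ l + C ((X - C q) * (X - C q + 1) ^ N) * P : A[X][X]).natDegree = l ∧
    Irreducible (X ^ l + C ((X - C q) * (X - C q + 1) ^ N) * P : A[X][X]) := by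
  have h1 : (C ((X - C q) * (X - C q + 1) ^ N) * P : A[X][X]).natDegree < l :=
    (natDegree_C_mul_le _ _).trans_lt hl
  have hm : (X ^ l + C ((X - C q) * (X - C q + 1) ^ N) * P : A[X][X]).Monic :=
    monic_X_pow_add (degree_le_natDegree.trans_lt (by exact_mod_cast h1))
  have hd : (X ^ l + C ((X - C q) * (X - C q + 1) ^ N) * P : A[X][X]).natDegree = l := by
    rw [natDegree_add_eq_left_of_natDegree_lt (by rwa [natDegree_X_pow]), natDegree_X_pow]
  have hp : (Ideal.span {X - C q} : Ideal A[X]).IsPrime :=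
    (Ideal.span_singleton_prime (X_sub_C_ne_zero q)).2 (prime_X_sub_C q)
  refine ⟨hm, hd, irreducible_of_eisenstein_criterion hp ?_ (fun n hn => ?_) ?_ ?_ hm.isPrimitive⟩
  · rw [hm.leadingCoeff]; exact fun h => hp.ne_top ((Ideal.eq_top_iff_one _).2 h)
  · rw [degree_eq_natDegree hm.ne_zero, hd] at hn
    have hn' : n < l := by exact_mod_cast hn
    rw [coeff_add, coeff_X_pow, if_neg hn'.ne, zero_add, coeff_C_mul, mul_assoc]
    exact Ideal.mem_span_singleton.2 (Dvd.intro _ rfl)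
  · rw [degree_eq_natDegree hm.ne_zero, hd]; exact_mod_cast (Nat.zero_le _).trans_lt hl
  · rw [Ideal.span_singleton_pow, Ideal.mem_span_singleton, coeff_add, coeff_X_pow,
      if_neg (by omega), zero_add, coeff_C_mul, mul_assoc, pow_two,
      mul_dvd_mul_iff_left (X_sub_C_ne_zero q), dvd_iff_isRoot]
    simpa using hq

lemma dle {R E K : Type*} [CommRing R] [Field E] [Field K] [Algebra E K] (ρ : R →+* E) (p : R[X])
    (hp : p.Monic) (f : K) (h : p.eval₂ ((algebraMap E K).comp ρ) f = 0) :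
    (minpoly E f).natDegree ≤ p.natDegree :=
  (natDegree_le_natDegree (minpoly.min E f (hp.map ρ) (by rw [aeval_def, eval₂_map, h]))).trans
    natDegree_map_le

lemma trA {k K : Type*} [Field k] [Field K] [Algebra k K] {t : K} (h : Transcendental k t) :
    Transcendental (algebraicClosure k K) t := h.extendScalars _

lemma adj2 {k K : Type*} [Field k] [Field K] [Algebra k K] {S T : Set K} {α : K}
    (h : α ∈ adjoin k (S ∪ T)) : α ∈ adjoin (adjoin k S) T := by
  rw [← adjoin_adjoin_left] at h; exact h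

lemma rac {k K : Type*} [Field k] [Field K] [Algebra k K] {t α : K} (h : Transcendental k t)
    (hα : α ∈ k⟮t⟯) (ha : IsAlgebraic k α) : ∃ q, α = algebraMap k K q := by
  obtain ⟨w, hw⟩ := (RatFunc.algEquivOfTranscendental t h).surjective ⟨α, hα⟩
  by_contra hn
  refine w.transcendental_of_ne_C ?_ ?_
  · rintro ⟨c, rfl⟩
    refine hn ⟨c, ?_⟩
    have := congrArg Subtype.val hw
    rw [← RatFunc.algebraMap_eq_C, AlgEquiv.commutes] at this
    exact this.symm
  · rw [← isAlgebraic_algHom_iff (RatFunc.algEquivOfTranscendental t h).toAlgHom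
      (AlgEquiv.injective _), IntermediateField.isAlgebraic_iff]
    exact (congrArg Subtype.val hw) ▸ ha

section
variable {K : Type*} [Field K] [LinearOrder K] [IsStrictOrderedRing K] {t : K}

lemma low (ht : ∀ n : ℕ, (n : K) < t) (p : ℚ[X]) (hp : p ≠ 0) :
    ∃ r : ℚ, 0 < r ∧ (r : K) ≤ |aeval t p| := by
  induction h : p.natDegree using Nat.strong_induction_on generalizing p with
  | _ n ih =>
  by_cases h0 : p.divX = 0
  · obtain e := divX_eq_zero_iff.1 h0
    refine ⟨|p.coeff 0|, abs_pos.2 fun h => hp (by rw [e, h, C_0]), ?_⟩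
    conv_rhs => rw [e]
    simp
  · obtain ⟨r, h1, h2⟩ := ih _ (by
      rw [← h]; exact natDegree_lt_natDegree h0 (degree_divX_lt hp)) _ h0 rfl
    refine ⟨1, one_pos, ?_⟩
    obtain ⟨m, hm⟩ := exists_nat_gt ((1 + |p.coeff 0|) / r)
    rw [div_lt_iff₀ h1] at hm
    have hm' : 1 + |((p.coeff 0 : ℚ) : K)| < m * (r : K) := by exact_mod_cast hm
    have e : aeval t p = aeval t p.divX * t + ((p.coeff 0 : ℚ) : K) := by
      conv_lhs => rw [← divX_mul_X_add p]
      simp
    have t0 : 0 < t := by simpa using ht 0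
    have h1' : (0 : K) < r := by exact_mod_cast h1
    have := abs_sub_abs_le_abs_add (aeval t p.divX * t) ((p.coeff 0 : ℚ) : K)
    rw [← e, abs_mul, abs_of_pos t0] at this
    push_cast
    nlinarith [ht m, mul_le_mul_of_nonneg_right h2 t0.le]

lemma trans (ht : ∀ n : ℕ, (n : K) < t) : Transcendental ℚ t := by
  rintro ⟨p, hp, h⟩
  obtain ⟨r, h1, h2⟩ := low ht p hp
  rw [h, abs_zero] at h2
  exact absurd h2 (not_le.2 (by exact_mod_cast h1))

def B (t y : K) : Prop := ∃ N : ℕ, |y| ≤ t ^ N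

lemma Badd (ht : ∀ n : ℕ, (n : K) < t) {x y : K} (hx : B t x) (hy : B t y) : B t (x + y) := by
  obtain ⟨a, ha⟩ := hx
  obtain ⟨b, hb⟩ := hy
  have t2 : 2 < t := by exact_mod_cast ht 2
  have h1 : t ^ a ≤ t ^ (a + b) := pow_le_pow_right₀ (by linarith) (by omega)
  have h2 : t ^ b ≤ t ^ (a + b) := pow_le_pow_right₀ (by linarith) (by omega)
  refine ⟨a + b + 1, (abs_add_le x y).trans ?_⟩
  rw [pow_succ]
  nlinarith [pow_pos (by linarith : 0 < t) (a + b)]

lemma Bmul {x y : K} (hx : B t x) (hy : B t y) : B t (x * y) := by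
  obtain ⟨a, ha⟩ := hx
  obtain ⟨b, hb⟩ := hy
  exact ⟨a + b, by rw [abs_mul, pow_add]; exact mul_le_mul ha hb (abs_nonneg _) ((abs_nonneg _).trans ha)⟩

lemma Brat (ht : ∀ n : ℕ, (n : K) < t) (r : ℚ) : B t r := by
  obtain ⟨n, hn⟩ := exists_nat_gt |r|
  have : |(r : K)| < n := by exact_mod_cast hn
  exact ⟨1, by rw [pow_one]; exact (this.trans (ht n)).le⟩

lemma Bpoly (ht : ∀ n : ℕ, (n : K) < t) (p : ℚ[X]) : B t (aeval t p) := by
  have t0 : 0 < t := by simpa using ht 0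
  induction p using Polynomial.induction_on' with
  | add p q h1 h2 => rw [map_add]; exact Badd ht h1 h2
  | monomial n a =>
    rw [aeval_monomial]
    exact Bmul (Brat ht a) ⟨n, by rw [abs_of_pos (pow_pos t0 n)]⟩

lemma clear (ht : ∀ n : ℕ, (n : K) < t) (m : ℚ⟮t⟯[X]) : ∃ d : ℚ[X], d ≠ 0 ∧ ∃ P : ℚ[X][X],
    P.map (aeval t).toRingHom = C (aeval t d) * m.map (algebraMap _ K) := by
  induction m using Polynomial.induction_on' with
  | add p q h1 h2 =>
    obtain ⟨d, hd, P, h⟩ := h1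
    obtain ⟨d', hd', P', h'⟩ := h2
    refine ⟨d * d', mul_ne_zero hd hd', C d' * P + C d * P', ?_⟩
    simp only [Polynomial.map_add, Polynomial.map_mul, map_C, h, h', map_mul]
    simp only [AlgHom.toRingHom_eq_coe, RingHom.coe_coe]
    ring
  | monomial n a =>
    obtain ⟨r, s, h⟩ := (mem_adjoin_simple_iff ℚ a.1).1 a.2
    by_cases hs : s = 0
    · refine ⟨1, one_ne_zero, 0, ?_⟩
      have : algebraMap _ K a = 0 := by rw [hs] at h; simpa using h
      simp [this]
    · have : aeval t s ≠ 0 := fun h0 => trans ht ⟨s, hs, h0⟩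
      refine ⟨s, hs, monomial n r, ?_⟩
      rw [map_monomial, map_monomial, C_mul_monomial]
      congr 1
      show aeval t r = aeval t s * a.1
      rw [h]; field_simp

lemma ann (ht : ∀ n : ℕ, (n : K) < t) [Algebra.IsAlgebraic ℚ⟮t⟯ K] (c : K) :
    ∃ P : ℚ[X][X], P ≠ 0 ∧ (P.map (aeval t).toRingHom).eval c = 0 := by
  obtain ⟨m, hm, h⟩ := Algebra.IsAlgebraic.isAlgebraic (R := ℚ⟮t⟯) c
  obtain ⟨d, hd, P, e⟩ := clear ht m
  refine ⟨P, fun h0 => ?_, by rw [e, eval_mul, eval_map, ← aeval_def, h, mul_zero]⟩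
  rw [h0, Polynomial.map_zero, eq_comm] at e
  exact mul_ne_zero (C_ne_zero.2 fun h0 => trans ht ⟨d, hd, h0⟩) (Polynomial.map_ne_zero hm) e

lemma Ball (ht : ∀ n : ℕ, (n : K) < t) [Algebra.IsAlgebraic ℚ⟮t⟯ K] (y : K) : B t y := by
  obtain ⟨P, hP, h⟩ := ann ht y
  by_cases hy : |y| ≤ 1
  · exact ⟨0, by simpa using hy⟩
  obtain ⟨r, h1, h2⟩ := low ht _ (leadingCoeff_ne_zero.2 hP)
  have h1' : (0 : K) < r := by exact_mod_cast h1
  rw [eval_map, eval₂_eq_sum_range, Finset.sum_range_succ, add_eq_zero_iff_eq_neg'] at h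
  have hs : B t (∑ i ∈ Finset.range P.natDegree, |aeval t (P.coeff i)|) := by
    refine Finset.sum_induction _ _ (fun _ _ => Badd ht) (by simpa using Brat ht 0) fun i _ => ?_
    obtain ⟨N, hN⟩ := Bpoly ht (P.coeff i)
    exact ⟨N, by rwa [abs_abs]⟩
  obtain ⟨N, hN⟩ := Bmul hs (Brat ht r⁻¹)
  refine ⟨N, le_trans ?_ ((le_abs_self _).trans hN)⟩
  have y0 : 0 < |y| := by linarith [not_le.1 hy]
  have k : r * |y| ^ P.natDegree * |y| ≤
      (∑ i ∈ Finset.range P.natDegree, |aeval t (P.coeff i)|) * |y| ^ P.natDegree := by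
    have a1 := congrArg abs h
    rw [abs_neg, abs_mul, abs_pow] at a1
    have a2 : r * |y| ^ P.natDegree ≤ _ :=
      (mul_le_mul_of_nonneg_right h2 (pow_pos y0 _).le).trans (a1.le.trans
        (Finset.abs_sum_le_sum_abs _ _))
    refine (mul_le_mul_of_nonneg_right a2 y0.le).trans ?_
    rw [Finset.sum_mul, Finset.sum_mul]
    refine Finset.sum_le_sum fun i hi => ?_
    rw [abs_mul, abs_pow, mul_assoc, ← pow_succ]
    exact mul_le_mul_of_nonneg_left (pow_le_pow_right₀ (not_le.1 hy).le (Finset.mem_range.1 hi))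
      (abs_nonneg _)
  rw [Rat.cast_inv, ← div_eq_mul_inv, le_div_iff₀ h1']
  refine le_of_mul_le_mul_right ?_ (pow_pos y0 P.natDegree)
  linarith

lemma simple (ht : ∀ n : ℕ, (n : K) < t) [Algebra.IsAlgebraic ℚ⟮t⟯ K] (c : K) (hc : c ≠ 0) :
    ∃ P : ℚ[X][X], P.coeff 0 ≠ 0 ∧ (P.map (aeval t).toRingHom).eval c = 0 ∧
      (derivative (P.map (aeval t).toRingHom)).eval c ≠ 0 := by
  classical
  have ex : ∃ n, ∃ P : ℚ[X][X], P ≠ 0 ∧ (P.map (aeval t).toRingHom).eval c = 0 ∧ P.natDegree = n := by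
    obtain ⟨P, h1, h2⟩ := ann ht c; exact ⟨_, P, h1, h2, rfl⟩
  obtain ⟨P, h1, h2, h3⟩ := Nat.find_spec ex
  have mn : ∀ Q : ℚ[X][X], Q ≠ 0 → Q.degree < P.degree → (Q.map (aeval t).toRingHom).eval c ≠ 0 :=
    fun Q q1 q2 q3 => Nat.find_min ex (h3 ▸ natDegree_lt_natDegree q1 q2) ⟨Q, q1, q3, rfl⟩
  refine ⟨P, fun h0 => ?_, h2, ?_⟩
  · have e := divX_mul_X_add P
    rw [h0, C_0, add_zero] at e
    refine mn P.divX (fun h => h1 (by rw [← e, h, zero_mul])) (degree_divX_lt h1) ?_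
    rw [← e, Polynomial.map_mul, eval_mul, map_X, eval_X] at h2
    exact (mul_eq_zero.1 h2).resolve_right hc
  · rw [derivative_map]
    refine mn _ (fun h => ?_) (degree_derivative_lt h1)
    have e := eq_C_of_derivative_eq_zero h
    rw [e, map_C, eval_C] at h2
    exact trans ht ⟨_, fun h => h1 (by rw [e, h, C_0]), h2⟩

lemma sgn [IsRealClosed K] (m : K[X]) {a b c : K} (h1 : a < c) (h2 : c < b) (h3 : m.eval c = 0)
    (h4 : (derivative m).eval c ≠ 0) :
    ∃ a' b', a < a' ∧ a' < b' ∧ b' < b ∧ m.eval a' * m.eval b' < 0 := by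
  classical
  obtain ⟨Q, rfl⟩ := dvd_iff_isRoot.2 h3
  have hQ : Q.eval c ≠ 0 := by simpa using h4
  have hQ0 : Q ≠ 0 := by rintro rfl; simp at hQ
  have : ∀ T : Finset K, c ∉ T → ∃ η : K, 0 < η ∧ ∀ r ∈ T, η < |r - c| := by
    intro T
    induction T using Finset.induction_on with
    | empty => exact fun _ => ⟨1, one_pos, by simp⟩
    | insert x T _ ih =>
      intro h
      rw [Finset.mem_insert, not_or] at h
      obtain ⟨η, e1, e2⟩ := ih h.2
      have := abs_pos.2 (sub_ne_zero.2 (Ne.symm h.1))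
      refine ⟨min η (|x - c| / 2), by positivity, fun r hr => ?_⟩
      rcases Finset.mem_insert.1 hr with rfl | hr
      · exact min_lt_of_right_lt (by linarith)
      · exact min_lt_of_left_lt (e2 r hr)
  obtain ⟨η, e1, e2⟩ := this (insert a (insert b Q.roots.toFinset)) (by
    simp [h1.ne', h2.ne, hQ0, hQ])
  have ea := e2 a (by simp)
  have eb := e2 b (by simp)
  rw [abs_of_neg (by linarith)] at ea
  rw [abs_of_pos (by linarith)] at eb
  have nr : ∀ r, c - η ≤ r → r ≤ c + η → Q.eval r ≠ 0 := fun r r1 r2 r3 =>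
    absurd (e2 r (by simp [hQ0, r3])) (not_lt.2 (abs_le.2 ⟨by linarith, by linarith⟩))
  refine ⟨c - η, c + η, by linarith, by linarith, by linarith, ?_⟩
  have : 0 < Q.eval (c - η) * Q.eval (c + η) := by
    refine lt_of_le_of_ne (not_lt.1 fun h => ?_)
      (mul_ne_zero (nr _ le_rfl (by linarith)) (nr _ (by linarith) le_rfl)).symm
    obtain ⟨r, r1, r2, r3⟩ := ivt Q (by linarith) h
    exact nr r r1.le r2.le r3
  simp only [eval_mul, eval_sub, eval_X, eval_C]
  nlinarith [mul_pos (mul_pos e1 e1) this]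

def Good (t : K) (S : Finset K) : Prop :=
  ∀ α ∈ adjoin ℚ (insert t (S : Set K)), IsAlgebraic ℚ α → ∃ q : ℚ, α = q

lemma step [IsRealClosed K] (ht : ∀ n : ℕ, (n : K) < t) [Algebra.IsAlgebraic ℚ⟮t⟯ K]
    [DecidableEq K] (S : Finset K) (hS : Good t S) {a b : K} (hab : a < b) :
    ∃ f, a < f ∧ f < b ∧ Good t (insert f S) := by
  obtain ⟨c, h1, h2, hc⟩ : ∃ c, a < c ∧ c < b ∧ c ≠ 0 := by
    obtain ⟨c, h1, h2⟩ := exists_between hab
    obtain ⟨c', h1', h2'⟩ := exists_between h1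
    by_cases h : c = 0
    · exact ⟨c', h1', h2'.trans h2, h ▸ h2'.ne⟩
    · exact ⟨c, h1, h2, h⟩
  obtain ⟨P, p0, p1, p2⟩ := simple ht c hc
  obtain ⟨a', b', s1, s2, s3, s4⟩ := sgn _ h1 h2 p1 p2
  obtain ⟨q, hq⟩ := exists_eval_ne_zero_of_natDegree_lt_card _ p0 (by simp)
  let A := algebraicClosure ℚ K
  let F := adjoin ℚ (insert t (S : Set K))
  let F1 := adjoin A⟮t⟯ (S : Set K)
  have tA : t ∈ A⟮t⟯ := mem_adjoin_simple_self A t
  have hint : ∀ x : K, IsIntegral A⟮t⟯ x := fun x => by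
    have hx : IsIntegral ℚ⟮t⟯ x := Algebra.IsIntegral.isIntegral x
    obtain ⟨p, pm, pe⟩ := hx
    have hle : (ℚ⟮t⟯).toSubfield ≤ (A⟮t⟯).toSubfield := (adjoin_subset_adjoin_iff _).2
      ⟨by rintro _ ⟨r, rfl⟩; simp, by simpa using tA⟩
    exact ⟨p.map (Subfield.inclusion hle), pm.map _, by rw [eval₂_map]; exact pe⟩
  haveI : FiniteDimensional A⟮t⟯ F1 := finiteDimensional_adjoin fun x _ => hint x
  obtain ⟨l, hl, lp⟩ := Nat.exists_infinite_primes (Module.finrank A⟮t⟯ F1 + P.natDegree + 1)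
  have big : ∀ z : K, ∃ N : ℕ, ∀ N' ≥ N, |z| < (t - q) * (t - q + 1) ^ N' := fun z => by
    obtain ⟨N, hN⟩ := Ball ht z
    obtain ⟨n, hn⟩ := exists_nat_gt (|q| + 1)
    have hn' : |(q : K)| + 1 < n := by exact_mod_cast hn
    have g1 := ht (2 * n)
    push_cast at g1
    have g2 := le_abs_self (q : K)
    have g3 := abs_nonneg (q : K)
    refine ⟨2 * N, fun N' h => hN.trans_lt (lt_of_le_of_lt ?_ (lt_mul_of_one_lt_left
      (pow_pos (by linarith) _) (by linarith)))⟩
    refine le_trans ?_ (pow_le_pow_right₀ (by linarith) h)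
    rw [pow_mul]
    exact pow_le_pow_left₀ (by linarith) (by nlinarith) N
  set u := (P.map (aeval t).toRingHom).eval a' with hu
  set v := (P.map (aeval t).toRingHom).eval b' with hv
  have u0 : u ≠ 0 := left_ne_zero_of_mul s4.ne
  have v0 : v ≠ 0 := right_ne_zero_of_mul s4.ne
  obtain ⟨N1, hN1⟩ := big (a' ^ l / u)
  obtain ⟨N2, hN2⟩ := big (b' ^ l / v)
  set G : ℚ[X][X] := X ^ l + C ((X - C q) * (X - C q + 1) ^ (N1 + N2)) * P with hG
  have ev : ∀ x : K, (G.map (aeval t).toRingHom).eval x = x ^ l +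
      (t - q) * (t - q + 1) ^ (N1 + N2) * (P.map (aeval t).toRingHom).eval x := fun x => by
    simp [hG]
  obtain ⟨f, f1, f2, f3⟩ := ivt (G.map (aeval t).toRingHom) s2 (by
    rw [ev, ev, ← hu, ← hv]
    have k1 := (abs_lt.1 (hN1 (N1 + N2) (by omega))).1
    have k2 := (abs_lt.1 (hN2 (N1 + N2) (by omega))).1
    generalize (t - q) * (t - q + 1) ^ (N1 + N2) = M at *
    have e1 : a' ^ l + M * u = (a' ^ l / u + M) * u := by field_simp
    have e2 : b' ^ l + M * v = (b' ^ l / v + M) * v := by field_simp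
    rw [e1, e2]
    nlinarith [mul_pos_of_neg_of_neg s4 (mul_neg_of_pos_of_neg (neg_lt_iff_pos_add.1 k1)
      (neg_neg_of_pos (neg_lt_iff_pos_add.1 k2)))])
  refine ⟨f, s1.trans f1, f2.trans s3, ?_⟩
  rw [eval_map] at f3
  obtain ⟨gm, gd, -⟩ := eis P q l (N1 + N2) (by omega) hq
  have d1 : (minpoly A⟮t⟯ f).natDegree = l := by
    have tr : Transcendental A t := trA (trans ht)
    have inj := (algebraMap ℚ A).injective
    obtain ⟨m1, m2, m3⟩ := eis (P.map (mapRingHom (algebraMap ℚ A))) (algebraMap ℚ A q) l (N1 + N2)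
      (natDegree_map_le.trans_lt (by omega)) (by
        rw [coeff_map, coe_mapRingHom, eval_map_algebraMap, aeval_algebraMap_apply]
        simpa using hq)
    have e : X ^ l + C ((X - C (algebraMap ℚ A q)) * (X - C (algebraMap ℚ A q) + 1) ^ (N1 + N2)) *
        P.map (mapRingHom (algebraMap ℚ A)) = G.map (mapRingHom (algebraMap ℚ A)) := by simp [hG]
    rw [e] at m1 m2 m3
    have m4 := (m1.irreducible_iff_irreducible_map_fraction_map (K := RatFunc A)).1 m3
    have m5 := (MulEquiv.irreducible_iff (Polynomial.mapEquiv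
      (RatFunc.algEquivOfTranscendental t tr).toRingEquiv)).2 m4
    rw [mapEquiv_apply] at m5
    rw [← minpoly.eq_of_irreducible_of_monic m5 _ ((m1.map _).map _), natDegree_map,
      m1.natDegree_map, m2]
    rw [aeval_def, eval₂_map, eval₂_map, eval₂_map, ← f3]
    congr 1
    refine Polynomial.ringHom_ext (fun r => by simp) ?_
    simp
  have FF1 : F.toSubfield ≤ F1.toSubfield := (adjoin_subset_adjoin_iff _).2
    ⟨by rintro _ ⟨r, rfl⟩; simp, Set.insert_subset (F1.algebraMap_mem ⟨t, tA⟩) (subset_adjoin _ _)⟩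
  have d2 : l ∣ (minpoly F1 f).natDegree := by
    have a1 := finrank_dvd_of_le_right (show A⟮t⟯⟮f⟯ ≤ (F1⟮f⟯).restrictScalars A⟮t⟯ from
      adjoin_simple_le_iff.2 (mem_adjoin_simple_self F1 f))
    have a2 := Module.finrank_mul_finrank A⟮t⟯ F1 F1⟮f⟯
    rw [adjoin.finrank (hint f), d1] at a1
    change l ∣ Module.finrank A⟮t⟯ F1⟮f⟯ at a1
    rw [← a2, adjoin.finrank (hint f).tower_top] at a1
    exact (lp.dvd_mul.1 a1).resolve_left (Nat.not_dvd_of_pos_of_lt Module.finrank_pos (by omega))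
  have tF : t ∈ F := subset_adjoin _ _ (Set.mem_insert _ _)
  have f4 : G.eval₂ ((algebraMap F K).comp (aeval (⟨t, tF⟩ : F)).toRingHom) f = 0 := by
    rw [← f3]; congr 1
    refine Polynomial.ringHom_ext (fun r => by simp) (by simp)
  have iF : IsIntegral F f := ⟨G.map _, gm.map _, by rw [eval₂_map]; exact f4⟩
  have d3 : (minpoly F f).natDegree = l := by
    refine le_antisymm (gd ▸ dle _ G gm f f4) ((Nat.le_of_dvd (minpoly.natDegree_pos
      (hint f).tower_top) d2).trans ?_)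
    exact dle (Subfield.inclusion FF1) _ (minpoly.monic iF) f (minpoly.aeval F f)
  intro α hα ha
  have hα' : α ∈ F⟮f⟯ := by
    refine adj2 (adjoin.mono _ _ _ ?_ hα)
    rw [Finset.coe_insert, Set.union_singleton, Set.insert_comm]
  have le1 : F⟮α⟯ ≤ F⟮f⟯ := adjoin_simple_le_iff.2 hα'
  have d4 := finrank_dvd_of_le_right le1
  haveI := adjoin.finiteDimensional iF
  rw [adjoin.finrank iF, d3] at d4
  rcases (Nat.dvd_prime lp).1 d4 with e | e
  · obtain ⟨y, rfl⟩ := IntermediateField.mem_bot.1 (finrank_adjoin_simple_eq_one_iff.1 e)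
    exact hS _ y.2 ha
  · exfalso
    have e2 := eq_of_le_of_finrank_eq le1 (by rw [e, adjoin.finrank iF, d3])
    have e3 : f ∈ F1 := by
      have : (F⟮α⟯ : Set K) ⊆ F1 := (adjoin_subset_adjoin_iff _).2 ⟨by
        rintro _ ⟨y, rfl⟩; exact FF1 y.2, Set.singleton_subset_iff.2
          (F1.algebraMap_mem ⟨α, (A⟮t⟯).algebraMap_mem ⟨α, mem_algebraicClosure_iff.2 ha⟩⟩)⟩
      exact this (e2 ▸ mem_adjoin_simple_self F f)
    have e4 : (minpoly F1 f).natDegree = 1 :=
      minpoly.natDegree_eq_one_iff.2 ⟨⟨f, e3⟩, rfl⟩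
    rw [e4] at d2
    exact lp.one_lt.ne' (Nat.dvd_one.1 d2)
end

theorem result (K : Type*) [Field K] [LinearOrder K] [IsStrictOrderedRing K] [IsRealClosed K]
    (t : K) (ht : ∀ n : ℕ, (n : K) < t) [Algebra.IsAlgebraic ℚ⟮t⟯ K] :
    ∃ F : Subfield K, (∀ a b : K, a < b → ∃ f ∈ F, a < f ∧ f < b) ∧
      ∀ α ∈ F, IsAlgebraic ℚ α → ∃ q : ℚ, α = q := by
  classical
  haveI : Countable ℚ[X] :=
    Cardinal.mk_le_aleph0_iff.1 (Polynomial.cardinalMk_le_max.trans (by simp))
  haveI : Countable ℚ⟮t⟯ := by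
    have : ((ℚ⟮t⟯ : IntermediateField ℚ K) : Set K).Countable :=
      (Set.countable_range (fun p : ℚ[X] × ℚ[X] => aeval t p.1 / aeval t p.2)).mono fun a ha => by
        obtain ⟨r, s, h⟩ := (mem_adjoin_simple_iff ℚ a).1 ha
        exact ⟨(r, s), h.symm⟩
    exact this.to_subtype
  haveI : Countable K := by
    rw [← Set.countable_univ_iff]
    exact (Algebraic.countable ℚ⟮t⟯ K).mono fun x _ => Algebra.IsAlgebraic.isAlgebraic x
  haveI : Nonempty {p : K × K // p.1 < p.2} := ⟨⟨(0, 1), zero_lt_one⟩⟩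
  obtain ⟨e, he⟩ := exists_surjective_nat {p : K × K // p.1 < p.2}
  have g0 : Good t ∅ := by
    intro α hα ha
    rw [Finset.coe_empty, LawfulSingleton.insert_empty_eq] at hα
    simpa using rac (trans ht) hα ha
  choose f f1 f2 f3 using fun (S : {S // Good t S}) (p : {p : K × K // p.1 < p.2}) =>
    step ht S.1 S.2 p.2
  let S : ℕ → {S // Good t S} := fun n => Nat.rec ⟨∅, g0⟩
    (fun n S => ⟨insert (f S (e n)) S.1, f3 S (e n)⟩) n
  have mono : Monotone fun n => adjoin ℚ (insert t ((S n).1 : Set K)) :=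
    monotone_nat_of_le_succ fun n => adjoin.mono _ _ _
      (Set.insert_subset_insert (Finset.coe_subset.2 (Finset.subset_insert _ _)))
  refine ⟨(⨆ n, adjoin ℚ (insert t ((S n).1 : Set K))).toSubfield, fun a b hab => ?_,
    fun α hα ha => ?_⟩
  · obtain ⟨n, hn⟩ := he ⟨(a, b), hab⟩
    refine ⟨f (S n) (e n), ?_, by simpa [hn] using f1 (S n) (e n), by
      simpa [hn] using f2 (S n) (e n)⟩
    exact le_iSup (fun n => adjoin ℚ (insert t ((S n).1 : Set K))) (n + 1)
      (subset_adjoin _ _ (Set.mem_insert_of_mem _ (Finset.mem_coe.2 (Finset.mem_insert_self _ _))))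
  · have : α ∈ (↑(⨆ n, adjoin ℚ (insert t ((S n).1 : Set K))) : Set K) := hα
    rw [coe_iSup_of_directed mono.directed_le, Set.mem_iUnion] at this
    obtain ⟨n, hn⟩ := this
    exact (S n).2 α hn ha

end Pool.Agent.Results.MP_9bb08e_al.Dense
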